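import Pool.Agent.H559.US.Ev

set_option autoImplicit false

/-! # All systems of polynomials have many common random prime values in a polylogarithmic range -/

open Finset MeasureTheory ProbabilityTheory Filter Topology
open Pool.Agent.T2H32.BF (Model prob V V_pos V_anti V_ratio)
open Pool.Agent.H559.BS (Limit TT TT_le TT_ge TT_top log_TT log_pow_le log_top bc)
open Pool.Agent.H559.HY (surv Arr evl RS WW WW_mono box mem_box)

namespace Pool.Agent.H559.US

variable {k D : ℕ}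

theorem val_le (β : ℝ) (N : ℕ) (C : Arr k D) (hC : C ∈ box k D (Mc β N)) (m : ℕ) (hm : m ∈ Ioc 0 (0 + N)) (i : Fin k) :
    val C i m ≤ hi D β N := by
  rw [mem_box] at hC
  rw [mem_Ioc] at hm
  have h1 : |evl (C i) m| ≤ ((hi D β N : ℕ) : ℤ) := by
    unfold evl
    refine (abs_sum_le_sum_abs _ _).trans ?_
    have h2 : ∀ j ∈ (univ : Finset (Fin (D + 1))), |C i j * (m : ℤ) ^ (j : ℕ)| ≤ (Mc β N : ℤ) * (N : ℤ) ^ D := by
      intro j _
      rw [abs_mul, abs_pow]
      have h3 := hC i j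
      have h4 : |(m : ℤ)| = m := abs_of_nonneg (by positivity)
      rw [h4]
      have h5 : (m : ℤ) ^ (j : ℕ) ≤ (N : ℤ) ^ D := by
        calc (m : ℤ) ^ (j : ℕ) ≤ (N : ℤ) ^ (j : ℕ) := by
              gcongr
              omega
          _ ≤ (N : ℤ) ^ D := by
              have : (j : ℕ) ≤ D := by have := j.2; omega
              have hN1 : (1 : ℤ) ≤ N := by omega
              exact pow_le_pow_right₀ hN1 this
      exact mul_le_mul h3 h5 (by positivity) (by positivity)
    refine (sum_le_sum h2).trans ?_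
    rw [sum_const, card_univ, Fintype.card_fin, nsmul_eq_mul]
    unfold hi
    push_cast
    apply le_of_eq
    ring
  unfold val
  have h2 : ((evl (C i) m).natAbs : ℤ) ≤ (hi D β N : ℕ) := by
    rw [Int.natCast_natAbs]
    exact h1
  exact_mod_cast h2

open Classical in
theorem main_ae (c : ℝ) (hc : 1 < c) (k D : ℕ) (ε : ℝ) (hε : 0 < ε) :
    ∃ β : ℝ, 0 < β ∧ ∀ z : ℕ → ℕ, Limit z → ∀ (Ω : Type) [MeasurableSpace Ω] (P : Measure Ω) (a : ℕ → Ω → ℕ),
      Model P a → ∀ᵐ ω ∂P, ∀ᶠ N : ℕ in atTop, ∀ C ∈ box k D (Mc β N), (∀ p, p.Prime → FD C p) →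
        (∀ p : ℕ, p.Prime → Real.log N < p → NC C p) →
        (N : ℝ) ^ (1 - ε) ≤
          (((Ioc 0 (0 + N)).filter (fun m => ∀ i, val C i m ∈ RS z (WW c) (fun p => a p ω))).card : ℝ) := by
  obtain ⟨B, K, hK, hfl⟩ := Pool.Agent.T2H32.GB.flg (3 * (k * D)) (1 / 2) (by norm_num)
  set η : ℝ := 1 / (2 * (B + 1)) with hη
  have hB0 : (0 : ℝ) ≤ B := Nat.cast_nonneg B
  have hk0 : (0 : ℝ) ≤ k := Nat.cast_nonneg k
  have hη0 : 0 < η := by positivity
  have hη1 : η ≤ 1 := by
    rw [hη, div_le_one (by positivity)]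
    linarith
  have hηB : η * B ≤ 1 / 2 := by
    rw [hη, div_mul_eq_mul_div, div_le_div_iff₀ (by positivity) (by norm_num)]
    linarith
  set β : ℝ := min (min (ε / (4 * k + 6)) (η / (4 * k + 6))) (min (η / (2 * c)) (1 / 4)) with hβ
  have hβ0 : 0 < β := lt_min (lt_min (by positivity) (by positivity)) (lt_min (by positivity) (by norm_num))
  have hβε : (4 * k + 6) * β ≤ ε := by
    have : β ≤ ε / (4 * k + 6) := (min_le_left _ _).trans (min_le_left _ _)
    rw [le_div_iff₀ (by positivity)] at this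
    linarith
  have hβη : (4 * k + 6) * β ≤ η := by
    have : β ≤ η / (4 * k + 6) := (min_le_left _ _).trans (min_le_right _ _)
    rw [le_div_iff₀ (by positivity)] at this
    linarith
  have hβc : β * c < η := by
    have : β ≤ η / (2 * c) := (min_le_right _ _).trans (min_le_left _ _)
    rw [le_div_iff₀ (by positivity)] at this
    linarith
  have hβ4 : β ≤ 1 / 4 := (min_le_right _ _).trans (min_le_right _ _)
  refine ⟨β, hβ0, fun z hz Ω _ P a h => ?_⟩
  have := prob h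
  -- the set of the systems
  set I : ℕ → Finset (Arr k D) := fun N => (box k D (Mc β N)).filter (fun C =>
    (∀ p, p.Prime → FD C p) ∧ ∀ p : ℕ, p.Prime → Real.log N < p → NC C p) with hI
  set A : ℕ → Arr k D → (ℕ → ℕ) → Finset ℕ := fun N C b =>
    base C (WW c (TT (1 / 2) N)) (TT η N) (TT (1 / 2) N) N b with hA
  set M : ℕ → ℕ := fun N => z (hi D β N) with hM
  set RR : ℕ → ℝ := fun N => ∏ p ∈ (Ioc (TT η N) (M N)).filter Nat.Prime, (1 - 2 * (k : ℝ) / (p : ℝ)) with hR
  set Q : ℕ → Arr k D → Set Ω := fun N C =>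
    {ω | ((surv (kv C) (fun i => a i ω) ((Ioc (TT η N) (M N)).filter Nat.Prime) (A N C (fun i => a i ω))).card : ℝ) ≤
      (A N C (fun i => a i ω)).card * RR N / 2} with hQ
  set Bad : ℕ → Set Ω := fun N => ⋃ C ∈ I N, Q N C with hBad
  -- facts
  have hfacts : ∀ᶠ N : ℕ in atTop, 4 * k ≤ TT η N ∧ Real.log N ≤ TT η N := by
    filter_upwards [(TT_top η hη0).eventually_ge_atTop (4 * k), TT_ge η hη0, log_pow_le 1 η 2 hη0] with N h1 h2 h3
    refine ⟨h1, ?_⟩
    rw [pow_one] at h3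
    linarith [h2.1]
  -- the lower bound for the sifted set
  have hbase : ∀ᶠ N : ℕ in atTop, ∀ C ∈ I N, ∀ b, (N : ℝ) ^ (1 - β) ≤ (A N C b).card := by
    filter_upwards [base_ev k D B (3 * (k * D)) η β K hη0 hη1 hβ0 hβ4 hηB hK, w_ev k D c hc] with N h1 h2 C hC b
    rw [hI] at hC
    simp only [mem_filter] at hC
    obtain ⟨_, hFD, hNC⟩ := hC
    obtain ⟨p0, hp0, hp0p⟩ := Nat.exists_infinite_primes (⌊Real.log N⌋₊ + 1)
    have hp0l : Real.log N < p0 := by
      have := Nat.lt_floor_add_one (Real.log N)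
      have h3 : ((⌊Real.log N⌋₊ + 1 : ℕ) : ℝ) ≤ p0 := by exact_mod_cast hp0
      push_cast at h3
      linarith
    have hw : ∀ p : ℕ, p.Prime → WW c (TT (1 / 2) N) < p → NC C p ∧ 3 * (k * D) < p := by
      intro p hp hwp
      refine ⟨hNC p hp ?_, by omega⟩
      have : (WW c (TT (1 / 2) N) : ℝ) < p := by exact_mod_cast hwp
      linarith [h2.1]
    have hcard : ∀ p ≤ TT η N, p.Prime → (Om C (WW c (TT (1 / 2) N)) b p).card ≤ 3 * (k * D) ∧
        (Om C (WW c (TT (1 / 2) N)) b p).card < p := fun p _ hp =>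
      ⟨Om_card C _ b p hp (hFD p hp) fun h => (hw p hp h).1, Om_lt C _ b p hp (hFD p hp) fun h => hw p hp h⟩
    have h3 := hfl (TT η N) (Om C (WW c (TT (1 / 2) N)) b) (fun p hp hpp => ⟨filter_subset _ _, (hcard p hp hpp).1⟩) 0 N
    have h4 := prod_low (3 * (k * D)) (TT η N) (fun p => (Om C (WW c (TT (1 / 2) N)) b p).card) hcard
    have h5 := base_card C (WW c (TT (1 / 2) N)) (TT η N) (TT (1 / 2) N) N p0 b (hNC p0 hp0p hp0l)
    have h6 := (abs_le.1 h3).1
    have h7 : (N : ℝ) * ((1 / (2 * ((3 * (k * D) : ℕ) : ℝ) + 1)) ^ (2 * (3 * (k * D)) + 1) * V (TT η N) ^ (2 * (3 * (k * D)))) ≤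
        N * ∏ p ∈ (range (TT η N + 1)).filter Nat.Prime, (1 - ((Om C (WW c (TT (1 / 2) N)) b p).card : ℝ) / p) := by
      gcongr
    simp only [hA]
    linarith
  have hRlow : ∀ᶠ N : ℕ in atTop, (N : ℝ) ^ (-((4 * k + 1) * β)) ≤ RR N / 2 := by
    filter_upwards [V_ev D β hβ0 z hz, hfacts, eventually_ge_atTop 1,
      (rp_top β hβ0).eventually_ge_atTop (2 * 4 ^ (4 * k))] with N h1 h2 h3 h4
    have hN0 : (0 : ℝ) < N := by exact_mod_cast h3
    have h5 := prod_low2 (2 * k) (TT η N) (M N) (by omega)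
    have h6 : (1 / (4 * (N : ℝ) ^ β)) ^ (4 * k) ≤ RR N := by
      refine le_trans (pow_le_pow_left₀ (by positivity) h1 _) ?_
      refine le_trans (le_of_eq ?_) (h5.trans (le_of_eq ?_))
      · congr 1
        ring
      · simp only [hR]
        refine prod_congr rfl fun p _ => ?_
        push_cast
        ring
    have h7 : (N : ℝ) ^ (-((4 * k + 1) * β)) * (2 * (4 * (N : ℝ) ^ β) ^ (4 * k)) ≤ 1 := by
      have e1 : ((N : ℝ) ^ β) ^ (4 * k) = (N : ℝ) ^ (4 * k * β) := by
        rw [← Real.rpow_natCast, ← Real.rpow_mul hN0.le]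
        congr 1
        push_cast
        ring
      rw [mul_pow, e1]
      calc (N : ℝ) ^ (-((4 * k + 1) * β)) * (2 * (4 ^ (4 * k) * (N : ℝ) ^ (4 * k * β)))
          = (2 * 4 ^ (4 * k)) * ((N : ℝ) ^ (-((4 * k + 1) * β)) * (N : ℝ) ^ (4 * k * β)) := by ring
        _ ≤ (N : ℝ) ^ β * ((N : ℝ) ^ (-((4 * k + 1) * β)) * (N : ℝ) ^ (4 * k * β)) := by gcongr
        _ = 1 := by
            rw [← Real.rpow_add hN0, ← Real.rpow_add hN0]
            rw [show β + (-((4 * (k : ℝ) + 1) * β) + 4 * k * β) = 0 by ring, Real.rpow_zero]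
    have h8 : 0 < (4 * (N : ℝ) ^ β) ^ (4 * k) := by positivity
    rw [one_div, inv_pow] at h6
    calc (N : ℝ) ^ (-((4 * k + 1) * β)) ≤ 1 / (2 * (4 * (N : ℝ) ^ β) ^ (4 * k)) := by
          rw [le_div_iff₀ (by positivity)]
          exact h7
      _ = ((4 * (N : ℝ) ^ β) ^ (4 * k))⁻¹ / 2 := by field_simp
      _ ≤ RR N / 2 := by gcongr
  -- probability
  have hprob : ∀ᶠ N : ℕ in atTop, ∀ C ∈ I N, P.real (Q N C) ≤ Real.exp (-((N : ℝ) ^ (3 * β))) := by
    filter_upwards [hbase, hRlow, hfacts, kill_ev k D η β hη0 hη1 hβ0, eventually_ge_atTop 1, TT_ge η hη0]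
      with N h1 h2 h3 h4 h5 h6 C hC
    have hN0 : (0 : ℝ) < N := by exact_mod_cast h5
    have hN1 : (1 : ℝ) ≤ N := by exact_mod_cast h5
    have hC' := hC
    rw [hI] at hC
    simp only [mem_filter] at hC
    obtain ⟨_, hFD, hNC⟩ := hC
    have hT : (1 : ℝ) ≤ TT η N := by exact_mod_cast h6.2
    have htl := tailc h (kv C) ((N : ℝ) ^ (-(1 - η + β))) k ((N : ℝ) ^ (1 - η + β)) ((N : ℝ) ^ (1 - β)) (by positivity)
      (by rw [← Real.rpow_add hN0, neg_add_cancel, Real.rpow_zero]) hk0 (TT η N) (M N) (fun p u hp => kv_sub C p u hp)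
      (fun p u => kv_card C p u) (fun p hp => by
        have : (2 * k : ℕ) ≤ p := by omega
        exact_mod_cast this) (A N C) (fun b p hp hTp r => by
        have hlp : Real.log N < p := by
          have : (TT η N : ℝ) < p := by exact_mod_cast hTp
          linarith [h3.2]
        refine (kv_kill C p hp (hNC p hp hlp) N r (A N C b) ?_).trans (le_trans ?_ h4)
        · simp only [hA]
          unfold base
          exact (filter_subset _ _).trans (filter_subset _ _)
        · have : (TT η N : ℝ) ≤ p := by exact_mod_cast hTp.le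
          gcongr) (fun b b' hb => by
        simp only [hA]
        exact base_dep C _ _ _ _ b b' hb) (fun b => h1 C hC' b)
    refine htl.trans (Real.exp_le_exp.2 ?_)
    rw [neg_le_neg_iff]
    have e : (N : ℝ) ^ (-(1 - η + β)) * ((N : ℝ) ^ (1 - β) * RR N / 2) =
        (N : ℝ) ^ (-(1 - η + β)) * (N : ℝ) ^ (1 - β) * (RR N / 2) := by ring
    have hRe : (∏ p ∈ (Ioc (TT η N) (M N)).filter Nat.Prime, (1 - 2 * (k : ℝ) / (p : ℝ))) = RR N := rfl
    rw [hRe, e]
    calc (N : ℝ) ^ (3 * β) ≤ (N : ℝ) ^ (-(1 - η + β) + (1 - β) + (-((4 * k + 1) * β))) := by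
          apply Real.rpow_le_rpow_of_exponent_le hN1
          linarith
      _ = (N : ℝ) ^ (-(1 - η + β)) * (N : ℝ) ^ (1 - β) * (N : ℝ) ^ (-((4 * k + 1) * β)) := by
          rw [Real.rpow_add hN0, Real.rpow_add hN0]
      _ ≤ _ := by gcongr
  have hBadP : ∀ᶠ N : ℕ in atTop, P.real (Bad N) ≤ 1 / (N : ℝ) ^ 2 := by
    filter_upwards [hprob, box_ev k D β hβ0] with N h1 h2
    have h3 : P.real (Bad N) ≤ ∑ C ∈ I N, P.real (Q N C) := by
      simp only [hBad]
      exact measureReal_biUnion_finset_le _ _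
    refine h3.trans ((sum_le_sum h1).trans ?_)
    rw [sum_const, nsmul_eq_mul]
    refine le_trans ?_ h2
    have h4 : ((I N).card : ℝ) ≤ (box k D (Mc β N)).card := by exact_mod_cast card_filter_le _ _
    gcongr
  filter_upwards [bc Bad 1 zero_le_one hBadP] with ω hω
  filter_upwards [hω, hbase, hRlow, w_ev k D c hc, q3, W_ev D c η β hc hη0 hβ0 hβc, eventually_ge_atTop 1,
    hfacts] with N h1 h2 h3 h4 h5 h6 h7 h8 C hC hFD hNC
  have hN0 : (0 : ℝ) < N := by exact_mod_cast h7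
  have hN1 : (1 : ℝ) ≤ N := by exact_mod_cast h7
  have hCI : C ∈ I N := by
    rw [hI]
    simp only [mem_filter]
    exact ⟨hC, hFD, hNC⟩
  have h9 : ω ∉ Q N C := by
    intro h
    apply h1
    simp only [hBad]
    exact Set.mem_biUnion hCI h
  have h10 : (A N C (fun i => a i ω)).card * RR N / 2 <
      ((surv (kv C) (fun i => a i ω) ((Ioc (TT η N) (M N)).filter Nat.Prime) (A N C (fun i => a i ω))).card : ℝ) := by
    by_contra hcon
    rw [not_lt] at hcon
    exact h9 hcon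
  have h11 := surv_sub C z (WW c) hz.1 (WW_mono c (by linarith)) (fun i => a i ω) (WW c (TT (1 / 2) N)) (TT η N)
    (TT (1 / 2) N) N (M N) (hi D β N) h5 le_rfl h6 le_rfl (fun m hm i => val_le β N C hC m hm i)
  have h12 := card_le_card h11
  have h13 : ((surv (kv C) (fun i => a i ω) ((Ioc (TT η N) (M N)).filter Nat.Prime) (A N C (fun i => a i ω))).card : ℝ) ≤
      (((Ioc 0 (0 + N)).filter (fun m => ∀ i, val C i m ∈ RS z (WW c) (fun p => a p ω))).card : ℝ) := by
    exact_mod_cast h12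
  refine le_trans ?_ (h10.le.trans h13)
  have h14 := h2 C hCI (fun i => a i ω)
  calc (N : ℝ) ^ (1 - ε) ≤ (N : ℝ) ^ ((1 - β) + (-((4 * k + 1) * β))) := by
        apply Real.rpow_le_rpow_of_exponent_le hN1
        linarith
    _ = (N : ℝ) ^ (1 - β) * (N : ℝ) ^ (-((4 * k + 1) * β)) := Real.rpow_add hN0 _ _
    _ ≤ ((A N C (fun i => a i ω)).card : ℝ) * (RR N / 2) := by gcongr
    _ = _ := by ring

end Pool.Agent.H559.US
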