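import Pool.Agent.H559.US.Main
import Pool.Agent.H559.HY.BH

set_option autoImplicit false

/-! # The theorem for polynomials -/

open Finset MeasureTheory ProbabilityTheory Filter Topology Polynomial
open Pool.Agent.T2H32.BF (Model)
open Pool.Agent.H559.BS (Limit log_pow_le)
open Pool.Agent.H559.HY (Arr evl RS WW box mem_box arr evl_arr)

namespace Pool.Agent.H559.US

variable {k : ℕ}

theorem tay_le (f : ℤ[X]) (D H x j : ℕ) (hH : 1 ≤ H) (hx : x ≤ H) (hf : f.natDegree ≤ D) (hc : ∀ j, |f.coeff j| ≤ H) :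
    |(taylor (x : ℤ) f).coeff j| ≤ (((D + 1) * 4 ^ D * H ^ (D + 1) : ℕ) : ℤ) := by
  rcases lt_or_ge D j with hj | hj
  · rw [coeff_eq_zero_of_natDegree_lt (by rw [natDegree_taylor]; omega), abs_zero]
    positivity
  · rw [taylor_coeff]
    have h1 : (hasseDeriv j f).natDegree < D + 1 := by
      have := natDegree_hasseDeriv_le f j
      omega
    rw [eval_eq_sum_range' h1]
    refine (abs_sum_le_sum_abs _ _).trans ?_
    have h2 : ∀ i ∈ range (D + 1), |(hasseDeriv j f).coeff i * (x : ℤ) ^ i| ≤ ((4 ^ D * H ^ (D + 1) : ℕ) : ℤ) := by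
      intro i hi
      rw [mem_range] at hi
      rw [hasseDeriv_coeff, abs_mul, abs_mul, abs_pow]
      have h3 : |((i + j).choose j : ℤ)| ≤ 4 ^ D := by
        rw [abs_of_nonneg (by positivity)]
        have h4 : (i + j).choose j ≤ 2 ^ (i + j) := Nat.choose_le_two_pow _ _
        have h5 : 2 ^ (i + j) ≤ 2 ^ (2 * D) := Nat.pow_le_pow_right (by norm_num) (by omega)
        have h6 : (2 : ℕ) ^ (2 * D) = 4 ^ D := by
          rw [pow_mul]
          norm_num
        rw [h6] at h5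
        exact_mod_cast h4.trans h5
      have h4 : |(x : ℤ)| ^ i ≤ (H : ℤ) ^ D := by
        rw [abs_of_nonneg (by positivity)]
        have hxH : (x : ℤ) ≤ H := by exact_mod_cast hx
        have hH1 : (1 : ℤ) ≤ H := by exact_mod_cast hH
        calc (x : ℤ) ^ i ≤ (H : ℤ) ^ i := by gcongr
          _ ≤ (H : ℤ) ^ D := pow_le_pow_right₀ hH1 (by omega)
      push_cast
      calc |((i + j).choose j : ℤ)| * |f.coeff (i + j)| * |(x : ℤ)| ^ i ≤ 4 ^ D * H * H ^ D := by
            have := hc (i + j)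
            gcongr
        _ = 4 ^ D * H ^ (D + 1) := by ring
    refine (sum_le_sum h2).trans ?_
    rw [sum_const, card_range, nsmul_eq_mul]
    push_cast
    apply le_of_eq
    ring

theorem tay_dvd (f : ℤ[X]) (p : ℕ) (x : ℤ) (h : ∀ j : ℕ, j ≠ 0 → (p : ℤ) ∣ f.coeff j) :
    ∀ j : ℕ, j ≠ 0 → (p : ℤ) ∣ (taylor x f).coeff j := by
  intro j hj
  rw [taylor_coeff, eval_eq_sum_range]
  refine Finset.dvd_sum fun i _ => Dvd.dvd.mul_right ?_ _
  rw [hasseDeriv_coeff]
  exact Dvd.dvd.mul_left (h (i + j) (by omega)) _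

theorem tay_nc (f : ℤ[X]) (p : ℕ) (x : ℤ) (h : ∃ j : ℕ, j ≠ 0 ∧ ¬ (p : ℤ) ∣ f.coeff j) :
    ∃ j : ℕ, j ≠ 0 ∧ ¬ (p : ℤ) ∣ (taylor x f).coeff j := by
  by_contra hcon
  push Not at hcon
  obtain ⟨j, hj0, hj⟩ := h
  have h1 := tay_dvd (taylor x f) p (-x) hcon j hj0
  rw [taylor_taylor, neg_add_cancel, taylor_zero] at h1
  exact hj h1

/-- the polynomials of the problem: degrees at most `D`, coefficients at most `H`, no polynomial constant modulo a
prime larger than `log N`, no fixed prime divisor -/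
def Sy (D H N : ℕ) (F : Fin k → ℤ[X]) : Prop :=
  (∀ i, (F i).natDegree ≤ D ∧ (∀ j, |(F i).coeff j| ≤ H) ∧
    ∀ p : ℕ, p.Prime → Real.log N < p → ∃ j : ℕ, j ≠ 0 ∧ ¬ (p : ℤ) ∣ (F i).coeff j) ∧
  ∀ p : ℕ, p.Prime → ∃ n : ℤ, ¬ (p : ℤ) ∣ ∏ i, (F i).eval n

theorem poly_ae (c : ℝ) (hc : 1 < c) (k D : ℕ) (ε : ℝ) (hε : 0 < ε) :
    ∃ B : ℝ, 0 < B ∧ ∀ z : ℕ → ℕ, Limit z → ∀ (Ω : Type) [MeasurableSpace Ω] (P : Measure Ω) (a : ℕ → Ω → ℕ),
      Model P a → ∀ᵐ ω ∂P, ∃ N₀ : ℕ, ∀ N ≥ N₀, ∀ H : ℕ, Real.log H ^ B ≤ N → ∀ x ≤ H, ∀ F : Fin k → ℤ[X], Sy D H N F →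
        (N : ℝ) ^ (1 - ε) ≤
          ({n : ℕ | x < n ∧ n ≤ x + N ∧ ∀ i, ((F i).eval (n : ℤ)).natAbs ∈ RS z (WW c) (fun p => a p ω)}.ncard : ℝ) := by
  classical
  obtain ⟨β, hβ, hmain⟩ := main_ae c hc k D ε hε
  refine ⟨2 / β, by positivity, fun z hz Ω _ P a h => ?_⟩
  filter_upwards [hmain z hz Ω P a h] with ω hω
  have hev : ∀ᶠ N : ℕ in atTop, Real.log ((D + 1) * 4 ^ D) + (D + 1) * (N : ℝ) ^ (β / 2) ≤ (N : ℝ) ^ β := by
    filter_upwards [(rp_top (β / 2) (by positivity)).eventually_ge_atTop (Real.log ((D + 1) * 4 ^ D) + (D + 1)),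
      eventually_ge_atTop 1] with N h1 h2
    have hN : (1 : ℝ) ≤ N := by exact_mod_cast h2
    have hN0 : (0 : ℝ) < N := by linarith
    have h3 : (1 : ℝ) ≤ (N : ℝ) ^ (β / 2) := Real.one_le_rpow hN (by positivity)
    have h4 : (N : ℝ) ^ β = (N : ℝ) ^ (β / 2) * (N : ℝ) ^ (β / 2) := by
      rw [← Real.rpow_add hN0]
      congr 1
      ring
    have h5 : 0 ≤ Real.log ((D + 1) * 4 ^ D) := by
      refine Real.log_nonneg ?_
      have h6 : (1 : ℝ) ≤ D + 1 := by linarith [(Nat.cast_nonneg D : (0 : ℝ) ≤ D)]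
      have h7 : (1 : ℝ) ≤ 4 ^ D := one_le_pow₀ (by norm_num)
      nlinarith
    rw [h4]
    nlinarith
  obtain ⟨N₀, hN₀⟩ := eventually_atTop.1 ((hω.and hev).and (eventually_ge_atTop 1))
  refine ⟨N₀, fun N hN H hH x hx F hF => ?_⟩
  obtain ⟨⟨h1, h2⟩, h3⟩ := hN₀ N hN
  have hN1 : (1 : ℝ) ≤ N := by exact_mod_cast h3
  have hN0 : (0 : ℝ) < N := by linarith
  set G : Fin k → ℤ[X] := fun i => taylor (x : ℤ) (F i) with hG
  have hGd : ∀ i, (G i).natDegree ≤ D := fun i => by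
    simp only [hG]
    rw [natDegree_taylor]
    exact (hF.1 i).1
  set H1 := max H 1 with hH1
  have hH11 : 1 ≤ H1 := le_max_right _ _
  have hlog : Real.log H1 = Real.log H := by
    rcases Nat.eq_zero_or_pos H with h | h
    · rw [hH1, h]
      simp
    · rw [hH1, max_eq_left h]
  have hlogle : Real.log H1 ≤ (N : ℝ) ^ (β / 2) := by
    have h0 : 0 ≤ Real.log H := by
      rw [← hlog]
      exact Real.log_nonneg (by exact_mod_cast hH11)
    rw [hlog]
    have h4 := Real.rpow_le_rpow (Real.rpow_nonneg h0 _) hH (show 0 ≤ β / 2 by positivity)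
    rwa [← Real.rpow_mul h0, show 2 / β * (β / 2) = 1 by field_simp, Real.rpow_one] at h4
  have hM : (D + 1) * 4 ^ D * H1 ^ (D + 1) ≤ Mc β N := by
    unfold Mc
    refine Nat.le_floor ?_
    push_cast
    have hH0 : (0 : ℝ) < H1 := by exact_mod_cast hH11
    have e : ((D : ℝ) + 1) * 4 ^ D * (H1 : ℝ) ^ (D + 1) =
        Real.exp (Real.log ((D + 1) * 4 ^ D) + (D + 1) * Real.log H1) := by
      rw [Real.exp_add, Real.exp_log (by positivity)]
      congr 1
      rw [show ((D : ℝ) + 1) * Real.log H1 = ((D + 1 : ℕ) : ℝ) * Real.log H1 by push_cast; ring, Real.exp_nat_mul,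
        Real.exp_log hH0]
    rw [e]
    apply Real.exp_le_exp.2
    refine le_trans ?_ h2
    gcongr
  have hev2 : ∀ (i : Fin k) (m : ℕ), evl (arr D G i) m = (F i).eval ((x + m : ℕ) : ℤ) := by
    intro i m
    rw [evl_arr D G hGd]
    simp only [hG]
    rw [taylor_eval]
    congr 1
    push_cast
    ring
  have hres := h1 (arr D G) ?_ ?_ ?_
  · refine hres.trans ?_
    have e : (((Ioc 0 (0 + N)).filter (fun m => ∀ i, val (arr D G) i m ∈ RS z (WW c) (fun p => a p ω))).card : ℝ) =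
        ({n : ℕ | x < n ∧ n ≤ x + N ∧ ∀ i, ((F i).eval (n : ℤ)).natAbs ∈ RS z (WW c) (fun p => a p ω)}.ncard : ℝ) := by
      have e1 : {n : ℕ | x < n ∧ n ≤ x + N ∧ ∀ i, ((F i).eval (n : ℤ)).natAbs ∈ RS z (WW c) (fun p => a p ω)} =
          (((Ioc 0 (0 + N)).filter (fun m => ∀ i, val (arr D G) i m ∈ RS z (WW c) (fun p => a p ω))).image
            (fun m => x + m) : Finset ℕ) := by
        ext n
        simp only [Set.mem_ofPred_eq, coe_image, Set.mem_image, mem_coe, mem_filter, mem_Ioc, zero_add, val, hev2]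
        constructor
        · rintro ⟨h4, h5, h6⟩
          refine ⟨n - x, ⟨⟨by omega, by omega⟩, ?_⟩, by omega⟩
          rw [show x + (n - x) = n by omega]
          exact h6
        · rintro ⟨m, ⟨⟨h4, h5⟩, h6⟩, rfl⟩
          exact ⟨by omega, by omega, h6⟩
      rw [e1, Set.ncard_coe_finset, card_image_of_injective _ (add_right_injective x)]
    rw [e]
  · rw [mem_box]
    intro i j
    have h4 := tay_le (F i) D H1 x j hH11 (hx.trans (le_max_left _ _)) (hF.1 i).1 (fun j => by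
      refine ((hF.1 i).2.1 j).trans ?_
      exact_mod_cast le_max_left _ _)
    refine h4.trans ?_
    exact_mod_cast hM
  · intro p hp
    obtain ⟨n, hn⟩ := hF.2 p hp
    have hp0 : (0 : ℤ) < p := by exact_mod_cast hp.pos
    refine ⟨((n - x) % p).toNat, fun i hi => hn ?_⟩
    rw [hev2] at hi
    refine Dvd.dvd.trans ?_ (dvd_prod_of_mem _ (mem_univ i))
    have h4 : (p : ℤ) ∣ n - ((x + ((n - x) % p).toNat : ℕ) : ℤ) := by
      push_cast
      rw [Int.toNat_of_nonneg (Int.emod_nonneg _ hp0.ne')]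
      have h5 := Int.emod_add_mul_ediv (n - x) p
      refine ⟨(n - x) / p, ?_⟩
      linarith
    have h5 := h4.trans (sub_dvd_eval_sub n ((x + ((n - x) % p).toNat : ℕ) : ℤ) (F i))
    have h6 := dvd_add h5 hi
    rwa [sub_add_cancel] at h6
  · intro p hp hlp i
    obtain ⟨j, hj0, hj⟩ := tay_nc (F i) p x ((hF.1 i).2.2 p hp hlp)
    have hjD : j ≤ D := by
      by_contra hcon
      apply hj
      rw [coeff_eq_zero_of_natDegree_lt (by rw [natDegree_taylor]; have := (hF.1 i).1; omega)]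
      exact dvd_zero _
    refine ⟨⟨j, by omega⟩, fun h => hj0 (by simpa using congrArg Fin.val h), ?_⟩
    exact hj

end Pool.Agent.H559.US
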