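import Pool.Agent.H559.US.Lap
import Pool.Agent.H559.HY.Eng

set_option autoImplicit false

/-! # The deterministic part -/

open Finset MeasureTheory ProbabilityTheory
open Pool.Agent.T2H32.BF (Model prob cond V V_pos V_anti V_ratio)
open Pool.Agent.H559.HY (surv Arr evl RS zero_count evl_sub_const res_le evl_mod)

namespace Pool.Agent.H559.US

variable {k D : ℕ}

/-- the absolute value of the `i`-th value -/
def val (C : Arr k D) (i : Fin k) (m : ℕ) : ℕ := (evl (C i) m).natAbs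

/-- no polynomial is constant modulo `p` -/
def NC (C : Arr k D) (p : ℕ) : Prop := ∀ i, ∃ j : Fin (D + 1), j ≠ 0 ∧ ¬ (p : ℤ) ∣ C i j

/-- `p` is no fixed divisor of the product -/
def FD (C : Arr k D) (p : ℕ) : Prop := ∃ r : ℕ, ∀ i, ¬ (p : ℤ) ∣ evl (C i) r

/-- the classes which are excluded by a small prime -/
def Om (C : Arr k D) (w1 : ℕ) (b : ℕ → ℕ) (p : ℕ) : Finset ℕ :=
  (range p).filter (fun r => ∃ i, (p : ℤ) ∣ evl (C i) r ∨
    (w1 < p ∧ ((p : ℤ) ∣ evl (C i) r - b p ∨ (p : ℤ) ∣ evl (C i) r + b p)))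

theorem evl_dvd_mod (g : Fin (D + 1) → ℤ) (p m : ℕ) (c : ℤ) :
    (p : ℤ) ∣ evl g (m % p) - c ↔ (p : ℤ) ∣ evl g m - c := by
  have h := evl_mod g p m
  constructor
  · intro h1
    have h2 : evl g m - c ≡ evl g (m % p) - c [ZMOD p] := Int.ModEq.sub_right c h
    exact (Int.ModEq.dvd_iff h2).2 h1
  · intro h1
    have h2 : evl g m - c ≡ evl g (m % p) - c [ZMOD p] := Int.ModEq.sub_right c h
    exact (Int.ModEq.dvd_iff h2).1 h1

theorem rt_le (g : Fin (D + 1) → ℤ) (p : ℕ) (hp : p.Prime) (hg : ∃ j : Fin (D + 1), j ≠ 0 ∧ ¬ (p : ℤ) ∣ g j) (c : ℤ) :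
    ((range p).filter (fun r => (p : ℤ) ∣ evl g r - c)).card ≤ D := by
  obtain ⟨j, hj0, hj⟩ := hg
  have h := zero_count (fun j => g j - if j = 0 then c else 0) p hp ⟨j, by
    rw [if_neg hj0, sub_zero]
    exact hj⟩
  simp only [evl_sub_const] at h
  exact h

theorem rt0_le (C : Arr k D) (p : ℕ) (hp : p.Prime) (hC : FD C p) (i : Fin k) :
    ((range p).filter (fun r => (p : ℤ) ∣ evl (C i) r)).card ≤ D := by
  refine zero_count (C i) p hp ?_
  by_contra hcon
  push Not at hcon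
  obtain ⟨r, hr⟩ := hC
  refine hr i ?_
  unfold evl
  exact Finset.dvd_sum fun j _ => Dvd.dvd.mul_right (hcon j) _

theorem Om_card (C : Arr k D) (w1 : ℕ) (b : ℕ → ℕ) (p : ℕ) (hp : p.Prime) (hC : FD C p) (hN : w1 < p → NC C p) :
    (Om C w1 b p).card ≤ 3 * (k * D) := by
  classical
  have h1 : Om C w1 b p ⊆ (univ : Finset (Fin k)).biUnion (fun i =>
      ((range p).filter (fun r => (p : ℤ) ∣ evl (C i) r)) ∪
        (if w1 < p then ((range p).filter (fun r => (p : ℤ) ∣ evl (C i) r - b p)) ∪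
          ((range p).filter (fun r => (p : ℤ) ∣ evl (C i) r - (-(b p : ℤ)))) else ∅)) := by
    intro r hr
    unfold Om at hr
    rw [mem_filter] at hr
    obtain ⟨hr1, i, hi⟩ := hr
    rw [mem_biUnion]
    refine ⟨i, mem_univ _, ?_⟩
    rw [mem_union]
    rcases hi with hi | ⟨hw, hi⟩
    · exact Or.inl (mem_filter.2 ⟨hr1, hi⟩)
    · right
      rw [if_pos hw, mem_union]
      rcases hi with hi | hi
      · exact Or.inl (mem_filter.2 ⟨hr1, hi⟩)
      · exact Or.inr (mem_filter.2 ⟨hr1, by rw [sub_neg_eq_add]; exact hi⟩)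
  refine (card_le_card h1).trans (card_biUnion_le.trans ?_)
  have h2 : ∀ i ∈ (univ : Finset (Fin k)), (((range p).filter (fun r => (p : ℤ) ∣ evl (C i) r)) ∪
        (if w1 < p then ((range p).filter (fun r => (p : ℤ) ∣ evl (C i) r - b p)) ∪
          ((range p).filter (fun r => (p : ℤ) ∣ evl (C i) r - (-(b p : ℤ)))) else ∅)).card ≤ 3 * D := by
    intro i _
    have h3 := rt0_le C p hp hC i
    refine (card_union_le _ _).trans ?_
    split_ifs with hw
    · have h4 := rt_le (C i) p hp (hN hw i) (b p)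
      have h5 := rt_le (C i) p hp (hN hw i) (-(b p : ℤ))
      have h6 := card_union_le ((range p).filter (fun r => (p : ℤ) ∣ evl (C i) r - b p))
        ((range p).filter (fun r => (p : ℤ) ∣ evl (C i) r - (-(b p : ℤ))))
      omega
    · rw [card_empty]
      omega
  refine (sum_le_sum h2).trans ?_
  rw [sum_const, card_univ, Fintype.card_fin, smul_eq_mul]
  nlinarith

theorem Om_lt (C : Arr k D) (w1 : ℕ) (b : ℕ → ℕ) (p : ℕ) (hp : p.Prime) (hC : FD C p)
    (hN : w1 < p → NC C p ∧ 3 * (k * D) < p) : (Om C w1 b p).card < p := by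
  rcases le_or_gt p w1 with h | h
  · obtain ⟨r, hr⟩ := hC
    have h1 : r % p ∈ range p := mem_range.2 (Nat.mod_lt _ hp.pos)
    have h2 : r % p ∉ Om C w1 b p := by
      intro h3
      unfold Om at h3
      rw [mem_filter] at h3
      obtain ⟨_, i, hi⟩ := h3
      rcases hi with hi | ⟨hw, _⟩
      · have h4 := (evl_dvd_mod (C i) p r 0).1 (by rw [sub_zero]; exact hi)
        rw [sub_zero] at h4
        exact hr i h4
      · omega
    have h3 : Om C w1 b p ⊂ range p := by
      rw [ssubset_iff_subset_ne]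
      refine ⟨filter_subset _ _, fun h => h2 (h ▸ h1)⟩
    have := card_lt_card h3
    rwa [card_range] at this
  · exact (Om_card C w1 b p hp hC fun h => (hN h).1).trans_lt (hN h).2

theorem bern (t : ℝ) (h0 : 0 ≤ t) (h1 : t ≤ 1 / 2) : Real.exp (-(2 * t)) ≤ 1 - t := by
  have h2 := Real.add_one_le_exp (2 * t)
  rw [Real.exp_neg, inv_le_comm₀ (Real.exp_pos _) (by linarith)]
  refine le_trans ?_ h2
  rw [inv_le_iff_one_le_mul₀ (by linarith)]
  nlinarith

theorem pow_fac (κ p : ℕ) (hp : 2 ≤ p) (h : 2 * κ ≤ p) : (1 - 1 / (p : ℝ)) ^ (2 * κ) ≤ 1 - (κ : ℝ) / p := by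
  have hp0 : (0 : ℝ) < p := by exact_mod_cast (show 0 < p by omega)
  have hp2 : (2 : ℝ) ≤ p := by exact_mod_cast hp
  have h2 : (2 : ℝ) * κ ≤ p := by exact_mod_cast h
  have h3 : 1 - 1 / (p : ℝ) ≤ Real.exp (-(1 / (p : ℝ))) := by
    have := Real.add_one_le_exp (-(1 / (p : ℝ)))
    linarith
  have h4 : 0 ≤ 1 - 1 / (p : ℝ) := by
    have : 1 / (p : ℝ) ≤ 1 := by rw [div_le_one hp0]; linarith
    linarith
  calc (1 - 1 / (p : ℝ)) ^ (2 * κ) ≤ Real.exp (-(1 / (p : ℝ))) ^ (2 * κ) := pow_le_pow_left₀ h4 h3 _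
    _ = Real.exp (-(2 * (κ / p))) := by
        rw [← Real.exp_nat_mul]
        congr 1
        push_cast
        ring
    _ ≤ 1 - (κ : ℝ) / p := bern _ (by positivity) (by
        rw [div_le_iff₀ hp0]
        linarith)

/-- lower bound for the density of the sifted set -/
theorem prod_low (κ T : ℕ) (ν : ℕ → ℕ) (h1 : ∀ p ≤ T, p.Prime → ν p ≤ κ ∧ ν p < p) :
    (1 / (2 * (κ : ℝ) + 1)) ^ (2 * κ + 1) * V T ^ (2 * κ) ≤
      ∏ p ∈ (range (T + 1)).filter Nat.Prime, (1 - (ν p : ℝ) / p) := by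
  set S := (range (T + 1)).filter Nat.Prime with hS
  have hc0 : (0 : ℝ) ≤ 1 / (2 * (κ : ℝ) + 1) := by positivity
  have hc1 : 1 / (2 * (κ : ℝ) + 1) ≤ 1 := by
    rw [div_le_one (by positivity)]
    linarith [(Nat.cast_nonneg κ : (0 : ℝ) ≤ κ)]
  have hfac : ∀ p ∈ S, (if p ≤ 2 * κ then 1 / (2 * (κ : ℝ) + 1) else 1) * (1 - 1 / (p : ℝ)) ^ (2 * κ) ≤
      1 - (ν p : ℝ) / p := by
    intro p hp
    rw [hS, mem_filter, mem_range] at hp
    obtain ⟨h2, h3⟩ := h1 p (by omega) hp.2
    have hp0 : (0 : ℝ) < p := by exact_mod_cast hp.2.pos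
    have hp2 : (2 : ℝ) ≤ p := by exact_mod_cast hp.2.two_le
    have h4 : 0 ≤ 1 - 1 / (p : ℝ) ∧ 1 - 1 / (p : ℝ) ≤ 1 := by
      have h5 : 1 / (p : ℝ) ≤ 1 := by rw [div_le_one hp0]; linarith
      have h6 : 0 < 1 / (p : ℝ) := by positivity
      constructor <;> linarith
    split_ifs with hpk
    · have h5 : (1 - 1 / (p : ℝ)) ^ (2 * κ) ≤ 1 := pow_le_one₀ h4.1 h4.2
      have h6 : (ν p : ℝ) + 1 ≤ p := by exact_mod_cast h3
      have h7 : 1 / (p : ℝ) ≤ 1 - (ν p : ℝ) / p := by
        rw [le_sub_iff_add_le, ← add_div, div_le_one hp0]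
        linarith
      have h8 : 1 / (2 * (κ : ℝ) + 1) ≤ 1 / (p : ℝ) := by
        have : (p : ℝ) ≤ 2 * κ := by exact_mod_cast hpk
        gcongr
        linarith
      calc 1 / (2 * (κ : ℝ) + 1) * (1 - 1 / (p : ℝ)) ^ (2 * κ) ≤ 1 / (2 * (κ : ℝ) + 1) * 1 := by gcongr
        _ ≤ _ := by linarith
    · rw [one_mul]
      refine (pow_fac κ p hp.2.two_le (by omega)).trans ?_
      have h5 : (ν p : ℝ) ≤ κ := by exact_mod_cast h2
      have h6 : (ν p : ℝ) / p ≤ κ / p := by gcongr
      linarith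
  have h2 : (∏ p ∈ S, (if p ≤ 2 * κ then 1 / (2 * (κ : ℝ) + 1) else 1)) * V T ^ (2 * κ) ≤
      ∏ p ∈ S, (1 - (ν p : ℝ) / p) := by
    have e : V T ^ (2 * κ) = ∏ p ∈ S, (1 - 1 / (p : ℝ)) ^ (2 * κ) := by
      unfold V
      rw [prod_pow]
    rw [e, ← prod_mul_distrib]
    refine prod_le_prod (fun p hp => ?_) hfac
    rw [hS, mem_filter] at hp
    have hp0 : (0 : ℝ) < p := by exact_mod_cast hp.2.pos
    have hp2 : (2 : ℝ) ≤ p := by exact_mod_cast hp.2.two_le
    have h5 : 1 / (p : ℝ) ≤ 1 := by rw [div_le_one hp0]; linarith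
    have h6 : 0 ≤ (1 - 1 / (p : ℝ)) ^ (2 * κ) := pow_nonneg (by linarith) _
    split_ifs <;> positivity
  refine le_trans (mul_le_mul_of_nonneg_right ?_ (pow_nonneg (V_pos T).le _)) h2
  rw [← prod_filter, prod_const]
  refine pow_le_pow_of_le_one hc0 hc1 ?_
  calc (S.filter (fun p => p ≤ 2 * κ)).card ≤ (range (2 * κ + 1)).card := by
        refine card_le_card fun p hp => ?_
        rw [mem_filter] at hp
        exact mem_range.2 (by omega)
    _ = 2 * κ + 1 := card_range _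

/-- lower bound for the density of the random part -/
theorem prod_low2 (κ T M : ℕ) (h : 2 * κ ≤ T) :
    (V M) ^ (2 * κ) ≤ ∏ p ∈ (Ioc T M).filter Nat.Prime, (1 - (κ : ℝ) / p) := by
  rcases le_or_gt T M with hTM | hTM
  · have h1 : (V M / V T) ^ (2 * κ) ≤ ∏ p ∈ (Ioc T M).filter Nat.Prime, (1 - (κ : ℝ) / p) := by
      rw [V_ratio T M hTM, ← prod_pow]
      refine prod_le_prod (fun p hp => ?_) fun p hp => ?_
      · rw [mem_filter] at hp
        have hp0 : (0 : ℝ) < p := by exact_mod_cast hp.2.pos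
        have hp2 : (2 : ℝ) ≤ p := by exact_mod_cast hp.2.two_le
        have h5 : 1 / (p : ℝ) ≤ 1 := by rw [div_le_one hp0]; linarith
        exact pow_nonneg (by linarith) _
      · rw [mem_filter, mem_Ioc] at hp
        exact pow_fac κ p hp.2.two_le (by omega)
    refine le_trans (pow_le_pow_left₀ (V_pos M).le ?_ _) h1
    rw [le_div_iff₀ (V_pos T)]
    have h2 : V T ≤ 1 := by
      have h3 : V T ≤ V 0 := V_anti (Nat.zero_le T)
      have h4 : V 0 = 1 := by
        unfold V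
        have : (range (0 + 1)).filter Nat.Prime = ∅ := by
          rw [filter_eq_empty_iff]
          intro p hp
          rw [mem_range] at hp
          have : p = 0 := by omega
          rw [this]
          exact Nat.not_prime_zero
        rw [this, prod_empty]
      linarith
    have := V_pos M
    nlinarith
  · have : (Ioc T M).filter Nat.Prime = ∅ := by
      rw [Ioc_eq_empty (by omega)]
      rfl
    rw [this, prod_empty]
    refine pow_le_one₀ (V_pos M).le ?_
    have h3 : V M ≤ V 0 := V_anti (Nat.zero_le M)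
    have h4 : V 0 = 1 := by
      unfold V
      have : (range (0 + 1)).filter Nat.Prime = ∅ := by
        rw [filter_eq_empty_iff]
        intro p hp
        rw [mem_range] at hp
        have : p = 0 := by omega
        rw [this]
        exact Nat.not_prime_zero
      rw [this, prod_empty]
    linarith

/-- the classes which are excluded by a large prime -/
def kv (C : Arr k D) (p m : ℕ) : Finset ℕ := (univ : Finset (Fin k)).image (fun i => val C i m % p)

theorem kv_sub (C : Arr k D) (p m : ℕ) (hp : 0 < p) : kv C p m ⊆ range p := by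
  intro r hr
  unfold kv at hr
  rw [mem_image] at hr
  obtain ⟨i, _, rfl⟩ := hr
  exact mem_range.2 (Nat.mod_lt _ hp)

theorem kv_card (C : Arr k D) (p m : ℕ) : ((kv C p m).card : ℝ) ≤ k := by
  have h : (kv C p m).card ≤ (univ : Finset (Fin k)).card := card_image_le
  rw [card_univ, Fintype.card_fin] at h
  exact_mod_cast h

theorem val_dvd (C : Arr k D) (i : Fin k) (m p r : ℕ) (h : val C i m % p = r) :
    (p : ℤ) ∣ evl (C i) m - r ∨ (p : ℤ) ∣ evl (C i) m + r := by
  have h1 : ((val C i m : ℕ) : ℤ) ≡ (r : ℤ) [ZMOD p] := by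
    rw [← h]
    push_cast
    exact (Int.mod_modEq _ _).symm
  rcases Int.natAbs_eq (evl (C i) m) with h2 | h2
  · left
    have : (evl (C i) m) ≡ (r : ℤ) [ZMOD p] := by
      rw [h2]
      exact h1
    exact this.symm.dvd
  · right
    have h3 : (evl (C i) m) = -((val C i m : ℕ) : ℤ) := h2
    have h4 : (p : ℤ) ∣ (r : ℤ) - (val C i m : ℕ) := h1.dvd
    rw [h3]
    have h5 : -((val C i m : ℕ) : ℤ) + r = (r : ℤ) - (val C i m : ℕ) := by ring
    rw [h5]
    exact h4

theorem kv_kill (C : Arr k D) (p : ℕ) (hp : p.Prime) (hC : NC C p) (N r : ℕ) (A : Finset ℕ) (hA : A ⊆ Ioc 0 (0 + N)) :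
    ((A.filter (fun u => r ∈ kv C p u)).card : ℝ) ≤ 2 * (k * D) * (N / p + 1) := by
  classical
  set S : Finset ℕ := (univ : Finset (Fin k)).biUnion (fun i =>
    ((range p).filter (fun s => (p : ℤ) ∣ evl (C i) s - r)) ∪
      ((range p).filter (fun s => (p : ℤ) ∣ evl (C i) s - (-(r : ℤ))))) with hS
  have h1 : A.filter (fun u => r ∈ kv C p u) ⊆ (Ioc 0 (0 + N)).filter (fun m => m % p ∈ S) := by
    intro u hu
    rw [mem_filter] at hu
    rw [mem_filter]
    refine ⟨hA hu.1, ?_⟩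
    have h2 := hu.2
    unfold kv at h2
    rw [mem_image] at h2
    obtain ⟨i, _, hi⟩ := h2
    have hm : u % p ∈ range p := mem_range.2 (Nat.mod_lt _ hp.pos)
    rw [hS, mem_biUnion]
    refine ⟨i, mem_univ _, ?_⟩
    rw [mem_union]
    rcases val_dvd C i u p r hi with h3 | h3
    · exact Or.inl (mem_filter.2 ⟨hm, (evl_dvd_mod (C i) p u r).2 h3⟩)
    · refine Or.inr (mem_filter.2 ⟨hm, (evl_dvd_mod (C i) p u (-(r : ℤ))).2 ?_⟩)
      rw [sub_neg_eq_add]
      exact h3
  have h2 : S.card ≤ 2 * (k * D) := by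
    refine card_biUnion_le.trans ?_
    have h3 : ∀ i ∈ (univ : Finset (Fin k)), (((range p).filter (fun s => (p : ℤ) ∣ evl (C i) s - r)) ∪
      ((range p).filter (fun s => (p : ℤ) ∣ evl (C i) s - (-(r : ℤ))))).card ≤ 2 * D := by
      intro i _
      have h4 := rt_le (C i) p hp (hC i) r
      have h5 := rt_le (C i) p hp (hC i) (-(r : ℤ))
      refine (card_union_le _ _).trans ?_
      omega
    refine (sum_le_sum h3).trans ?_
    rw [sum_const, card_univ, Fintype.card_fin, smul_eq_mul]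
    nlinarith
  have h3 : ((A.filter (fun u => r ∈ kv C p u)).card : ℝ) ≤
      (((Ioc 0 (0 + N)).filter (fun m => m % p ∈ S)).card : ℝ) := by exact_mod_cast card_le_card h1
  refine h3.trans ((res_le p hp.pos S 0 N).trans ?_)
  have h4 : (S.card : ℝ) ≤ 2 * (k * D) := by exact_mod_cast h2
  gcongr

/-- few integers have a small value -/
theorem small_le (C : Arr k D) (p0 : ℕ) (hC : NC C p0) (q : ℕ) (S : Finset ℕ) :
    (S.filter (fun m => ∃ i, val C i m < q)).card ≤ k * (2 * q * D) := by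
  classical
  have heq : ∀ (i : Fin k) (v : ℤ), (S.filter (fun m => evl (C i) m = v)).card ≤ D := by
    intro i v
    obtain ⟨j, hj0, hj⟩ := hC i
    have hj1 : C i j ≠ 0 := fun h => hj (by rw [h]; exact dvd_zero _)
    obtain ⟨p, hp1, hp⟩ := Nat.exists_infinite_primes (S.sup id + (C i j).natAbs + 1)
    have hjp : ¬ (p : ℤ) ∣ C i j := by
      intro h
      have h1 : p ∣ (C i j).natAbs := by
        have := Int.natAbs_dvd_natAbs.2 h
        rwa [Int.natAbs_natCast] at this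
      have h2 := Nat.le_of_dvd (Int.natAbs_pos.2 hj1) h1
      omega
    refine le_trans (card_le_card ?_) (rt_le (C i) p hp ⟨j, hj0, hjp⟩ v)
    intro m hm
    rw [mem_filter] at hm ⊢
    refine ⟨mem_range.2 ?_, ?_⟩
    · have : m ≤ S.sup id := Finset.le_sup (f := id) hm.1
      omega
    · rw [hm.2, sub_self]
      exact dvd_zero _
  have h1 : S.filter (fun m => ∃ i, val C i m < q) ⊆ (univ : Finset (Fin k)).biUnion (fun i =>
      (Ioo (-(q : ℤ)) q).biUnion (fun v => S.filter (fun m => evl (C i) m = v))) := by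
    intro m hm
    rw [mem_filter] at hm
    obtain ⟨hm1, i, hi⟩ := hm
    rw [mem_biUnion]
    refine ⟨i, mem_univ _, ?_⟩
    rw [mem_biUnion]
    refine ⟨evl (C i) m, ?_, mem_filter.2 ⟨hm1, rfl⟩⟩
    unfold val at hi
    rw [mem_Ioo]
    omega
  refine (card_le_card h1).trans (card_biUnion_le.trans ?_)
  have h2 : ∀ i ∈ (univ : Finset (Fin k)), ((Ioo (-(q : ℤ)) q).biUnion
      (fun v => S.filter (fun m => evl (C i) m = v))).card ≤ 2 * q * D := by
    intro i _
    refine card_biUnion_le.trans ((sum_le_sum fun v _ => heq i v).trans ?_)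
    rw [sum_const, smul_eq_mul]
    refine Nat.mul_le_mul_right _ ?_
    rw [Int.card_Ioo]
    omega
  refine (sum_le_sum h2).trans ?_
  rw [sum_const, card_univ, Fintype.card_fin, smul_eq_mul]

/-- the sifted set of the small primes -/
def base (C : Arr k D) (w1 T q N : ℕ) (b : ℕ → ℕ) : Finset ℕ :=
  ((Ioc 0 (0 + N)).filter (fun m => ∀ p ≤ T, p.Prime → m % p ∉ Om C w1 b p)).filter (fun m => ∀ i, q ≤ val C i m)

theorem base_card (C : Arr k D) (w1 T q N p0 : ℕ) (b : ℕ → ℕ) (hC : NC C p0) :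
    (((Ioc 0 (0 + N)).filter (fun m => ∀ p ≤ T, p.Prime → m % p ∉ Om C w1 b p)).card : ℝ) - k * (2 * q * D) ≤
      (base C w1 T q N b).card := by
  classical
  set S := (Ioc 0 (0 + N)).filter (fun m => ∀ p ≤ T, p.Prime → m % p ∉ Om C w1 b p) with hS
  have h1 := card_filter_add_card_filter_not (s := S) (p := fun m => ∀ i, q ≤ val C i m)
  have h2 : (S.filter (fun m => ¬ ∀ i, q ≤ val C i m)).card ≤ k * (2 * q * D) := by
    refine le_trans (card_le_card fun m hm => ?_) (small_le C p0 hC q S)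
    rw [mem_filter] at hm ⊢
    refine ⟨hm.1, ?_⟩
    have h3 := hm.2
    push Not at h3
    exact h3
  have h3 : ((S.filter (fun m => ∀ i, q ≤ val C i m)).card : ℝ) + (S.filter (fun m => ¬ ∀ i, q ≤ val C i m)).card =
      S.card := by exact_mod_cast h1
  have h4 : ((S.filter (fun m => ¬ ∀ i, q ≤ val C i m)).card : ℝ) ≤ k * (2 * q * D) := by exact_mod_cast h2
  have h5 : base C w1 T q N b = S.filter (fun m => ∀ i, q ≤ val C i m) := rfl
  rw [h5]
  linarith

theorem base_dep (C : Arr k D) (w1 T q N : ℕ) (b b' : ℕ → ℕ) (h : ∀ p ≤ T, p.Prime → b p = b' p) :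
    base C w1 T q N b = base C w1 T q N b' := by
  unfold base
  congr 1
  refine filter_congr fun m _ => forall_congr' fun p => forall_congr' fun hp => forall_congr' fun hpp => ?_
  unfold Om
  rw [h p hp hpp]

open Classical in
/-- the survivors are solutions -/
theorem surv_sub (C : Arr k D) (z W : ℕ → ℕ) (hz : Monotone z) (hW : Monotone W) (b : ℕ → ℕ)
    (w1 T q N M hi : ℕ) (h3 : 3 ≤ q) (hq : w1 ≤ W q) (hhi : W hi ≤ T) (hM : z hi ≤ M)
    (hv : ∀ m ∈ Ioc 0 (0 + N), ∀ i, val C i m ≤ hi) :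
    surv (kv C) b ((Ioc T M).filter Nat.Prime) (base C w1 T q N b) ⊆
      (Ioc 0 (0 + N)).filter (fun m => ∀ i, val C i m ∈ RS z W b) := by
  intro m hm
  unfold surv base at hm
  rw [mem_filter, mem_filter, mem_filter] at hm
  obtain ⟨⟨⟨hm1, hm2⟩, hm3⟩, hm4⟩ := hm
  rw [mem_filter]
  refine ⟨hm1, fun i => ?_⟩
  set v := val C i m with hvdef
  have hvq : q ≤ v := hm3 i
  have hvhi : v ≤ hi := hv m hm1 i
  refine ⟨h3.trans hvq, fun p hp hpp => ?_⟩
  have hWv : w1 ≤ W v := hq.trans (hW hvq)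
  have hWv2 : W v ≤ T := (hW hvhi).trans hhi
  have hzv : p ≤ M := hp.trans ((hz hvhi).trans hM)
  split_ifs with hpW
  · intro h5
    have h6 := hm2 p (hpW.trans hWv2) hpp
    apply h6
    unfold Om
    rw [mem_filter]
    refine ⟨mem_range.2 (Nat.mod_lt _ hpp.pos), i, Or.inl ?_⟩
    have h7 : (p : ℤ) ∣ evl (C i) m := by
      rw [← Int.natAbs_dvd_natAbs, Int.natAbs_natCast]
      exact Nat.dvd_of_mod_eq_zero h5
    have h8 := (evl_dvd_mod (C i) p m 0).2 (by rw [sub_zero]; exact h7)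
    rwa [sub_zero] at h8
  · intro h5
    rcases le_or_gt p T with hpT | hpT
    · have h6 := hm2 p hpT hpp
      apply h6
      unfold Om
      rw [mem_filter]
      refine ⟨mem_range.2 (Nat.mod_lt _ hpp.pos), i, Or.inr ⟨by omega, ?_⟩⟩
      rcases val_dvd C i m p (b p) h5 with h7 | h7
      · exact Or.inl ((evl_dvd_mod (C i) p m _).2 h7)
      · right
        have h8 := (evl_dvd_mod (C i) p m (-(b p : ℤ))).2 (by rw [sub_neg_eq_add]; exact h7)
        rwa [sub_neg_eq_add] at h8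
    · refine hm4 p (mem_filter.2 ⟨mem_Ioc.2 ⟨hpT, hzv⟩, hpp⟩) ?_
      unfold kv
      rw [mem_image]
      exact ⟨i, mem_univ _, h5⟩

end Pool.Agent.H559.US
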