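import Pool.Agent.H559.US.Base
import Pool.Agent.H559.HY.CutW

set_option autoImplicit false

/-! # Asymptotic inequalities -/

open Finset Filter Topology
open Pool.Agent.T2H32.BF (V V_pos V_anti V_ratio mertens)
open Pool.Agent.H559.BS (Limit TT TT_le TT_ge TT_top log_TT V_TT log_pow_le log_top g g_pos)
open Pool.Agent.H559.HY (WW cut_WW box card_box)

namespace Pool.Agent.H559.US

theorem rp_top (s : ℝ) (hs : 0 < s) : Tendsto (fun n : ℕ => (n : ℝ) ^ s) atTop atTop :=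
  (tendsto_rpow_atTop hs).comp tendsto_natCast_atTop_atTop

theorem q3 : ∀ᶠ N : ℕ in atTop, 3 ≤ TT (1 / 2) N := (TT_top (1 / 2) (by norm_num)).eventually_ge_atTop 3

theorem w_ev (k D : ℕ) (c : ℝ) (hc : 1 < c) : ∀ᶠ N : ℕ in atTop,
    Real.log N ≤ WW c (TT (1 / 2) N) ∧ 3 * (k * D) ≤ WW c (TT (1 / 2) N) := by
  have h1 := (cut_WW c hc).top.comp (TT_top (1 / 2) (by norm_num))
  filter_upwards [h1.eventually_ge_atTop 4, log_TT (1 / 2) (by norm_num), q3,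
    log_top.eventually_ge_atTop (4 * Real.log 2 + 3 * (k * D))] with N h2 h3 h4 h5
  simp only [Function.comp_apply] at h2
  have hq : (3 : ℝ) ≤ (TT (1 / 2) N : ℝ) := by exact_mod_cast h4
  have hl : 0 < Real.log (TT (1 / 2) N) := Real.log_pos (by linarith)
  rw [le_div_iff₀ hl] at h2
  have h6 : (0 : ℝ) ≤ 3 * (k * D) := by positivity
  have h7 : 0 ≤ Real.log 2 := (Real.log_pos (by norm_num)).le
  have h8 : Real.log N ≤ WW c (TT (1 / 2) N) := by linarith [h3.1]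
  refine ⟨h8, ?_⟩
  have h9 : (3 : ℝ) * (k * D) ≤ WW c (TT (1 / 2) N) := by linarith
  exact_mod_cast h9

/-- the bound for the coefficients -/
noncomputable def Mc (β : ℝ) (N : ℕ) : ℕ := ⌊Real.exp ((N : ℝ) ^ β)⌋₊

/-- the bound for the values -/
noncomputable def hi (D : ℕ) (β : ℝ) (N : ℕ) : ℕ := (D + 1) * Mc β N * N ^ D

theorem Mc_ge (β : ℝ) (hβ : 0 < β) : ∀ᶠ N : ℕ in atTop, N ≤ Mc β N := by
  filter_upwards [log_pow_le 1 β 1 hβ, eventually_ge_atTop 1] with N h1 h2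
  unfold Mc
  refine Nat.le_floor ?_
  have h3 : (0 : ℝ) < N := by exact_mod_cast h2
  rw [one_mul, pow_one] at h1
  calc (N : ℝ) = Real.exp (Real.log N) := (Real.exp_log h3).symm
    _ ≤ _ := Real.exp_le_exp.2 h1

theorem hi_ev (D : ℕ) (β : ℝ) (hβ : 0 < β) : ∀ᶠ N : ℕ in atTop,
    N ≤ hi D β N ∧ Real.log (hi D β N) ≤ 2 * (N : ℝ) ^ β := by
  filter_upwards [Mc_ge β hβ, eventually_ge_atTop 1, log_pow_le 1 β (2 * (D + 1)) hβ,
    (rp_top β hβ).eventually_ge_atTop (2 * Real.log (D + 1))] with N h1 h2 h3 h4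
  have hN : (1 : ℝ) ≤ N := by exact_mod_cast h2
  have hM : 1 ≤ Mc β N := h2.trans h1
  have hMr : (1 : ℝ) ≤ Mc β N := by exact_mod_cast hM
  constructor
  · unfold hi
    calc N ≤ Mc β N := h1
      _ ≤ (D + 1) * Mc β N := Nat.le_mul_of_pos_left _ (by omega)
      _ ≤ (D + 1) * Mc β N * N ^ D := Nat.le_mul_of_pos_right _ (pow_pos (by omega) _)
  · unfold hi
    push_cast
    rw [Real.log_mul (by positivity) (by positivity), Real.log_mul (by positivity) (by positivity), Real.log_pow]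
    have h5 : Real.log (Mc β N) ≤ (N : ℝ) ^ β := by
      rw [Real.log_le_iff_le_exp (by linarith)]
      exact Nat.floor_le (Real.exp_pos _).le
    have h6 : 0 ≤ Real.log N := Real.log_nonneg hN
    rw [pow_one] at h3
    nlinarith

theorem W_ev (D : ℕ) (c η β : ℝ) (hc : 1 < c) (hη : 0 < η) (hβ : 0 < β) (hβc : β * c < η) :
    ∀ᶠ N : ℕ in atTop, WW c (hi D β N) ≤ TT η N := by
  filter_upwards [hi_ev D β hβ, TT_ge η hη, eventually_ge_atTop 1,
    (rp_top (η - β * c) (by linarith)).eventually_ge_atTop (2 * 2 ^ c)] with N h1 h2 h3 h4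
  have hN : (0 : ℝ) < N := by exact_mod_cast h3
  have hhi : (1 : ℝ) ≤ hi D β N := by exact_mod_cast h3.trans h1.1
  have h5 : 0 ≤ Real.log (hi D β N) := Real.log_nonneg hhi
  have h6 : (WW c (hi D β N) : ℝ) ≤ Real.log (hi D β N) ^ c := Nat.floor_le (by positivity)
  have h7 : Real.log (hi D β N) ^ c ≤ (2 * (N : ℝ) ^ β) ^ c := Real.rpow_le_rpow h5 h1.2 (by linarith)
  rw [Real.mul_rpow (by norm_num) (by positivity), ← Real.rpow_mul hN.le] at h7
  have h8 : 2 * ((2 : ℝ) ^ c * (N : ℝ) ^ (β * c)) ≤ (N : ℝ) ^ η := by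
    calc 2 * ((2 : ℝ) ^ c * (N : ℝ) ^ (β * c)) = (2 * 2 ^ c) * (N : ℝ) ^ (β * c) := by ring
      _ ≤ (N : ℝ) ^ (η - β * c) * (N : ℝ) ^ (β * c) := by gcongr
      _ = (N : ℝ) ^ η := by
          rw [← Real.rpow_add hN]
          congr 1
          ring
  have h9 : (WW c (hi D β N) : ℝ) ≤ TT η N := by linarith [h2.1]
  exact_mod_cast h9

theorem V_ev (D : ℕ) (β : ℝ) (hβ : 0 < β) (z : ℕ → ℕ) (hz : Limit z) :
    ∀ᶠ N : ℕ in atTop, 1 / (4 * (N : ℝ) ^ β) ≤ V (z (hi D β N)) := by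
  have h0 : Tendsto (fun N => hi D β N) atTop atTop :=
    tendsto_atTop_mono' atTop ((hi_ev D β hβ).mono fun N h => h.1) tendsto_id
  have h1 := hz.2.comp h0
  filter_upwards [h1.eventually_const_lt (show (1 / 2 : ℝ) < 1 by norm_num), hi_ev D β hβ, eventually_ge_atTop 1]
    with N h2 h3 h4
  simp only [Function.comp_apply] at h2
  have hN : (0 : ℝ) < N := by exact_mod_cast h4
  have hV := V_pos (z (hi D β N))
  have h5 : 0 < (N : ℝ) ^ β := by positivity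
  rw [div_le_iff₀ (by positivity)]
  nlinarith [h3.2]

theorem kill_ev (k D : ℕ) (η β : ℝ) (hη : 0 < η) (hη1 : η ≤ 1) (hβ : 0 < β) :
    ∀ᶠ N : ℕ in atTop, 2 * (k * D) * ((N : ℝ) / TT η N + 1) ≤ (N : ℝ) ^ (1 - η + β) := by
  filter_upwards [TT_ge η hη, eventually_ge_atTop 1, (rp_top β hβ).eventually_ge_atTop (6 * (k * D))]
    with N h1 h2 h3
  have hN : (1 : ℝ) ≤ N := by exact_mod_cast h2
  have hN0 : (0 : ℝ) < N := by linarith
  have hT : (0 : ℝ) < TT η N := by exact_mod_cast h1.2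
  have h4 : 0 < (N : ℝ) ^ η := by positivity
  have h5 : (N : ℝ) / TT η N ≤ 2 * (N : ℝ) ^ (1 - η) := by
    rw [div_le_iff₀ hT]
    have e : (N : ℝ) ^ (1 - η) * (N : ℝ) ^ η = N := by
      rw [← Real.rpow_add hN0, sub_add_cancel, Real.rpow_one]
    calc (N : ℝ) = (N : ℝ) ^ (1 - η) * (N : ℝ) ^ η := e.symm
      _ = 2 * (N : ℝ) ^ (1 - η) * ((N : ℝ) ^ η / 2) := by ring
      _ ≤ 2 * (N : ℝ) ^ (1 - η) * TT η N := by gcongr; exact h1.1
  have h6 : (1 : ℝ) ≤ (N : ℝ) ^ (1 - η) := Real.one_le_rpow hN (by linarith)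
  calc 2 * (k * D) * ((N : ℝ) / TT η N + 1) ≤ 2 * (k * D) * (2 * (N : ℝ) ^ (1 - η) + (N : ℝ) ^ (1 - η)) := by
        gcongr
    _ = (6 * (k * D)) * (N : ℝ) ^ (1 - η) := by ring
    _ ≤ (N : ℝ) ^ β * (N : ℝ) ^ (1 - η) := by gcongr
    _ = _ := by
        rw [← Real.rpow_add hN0]
        congr 1
        ring

theorem base_ev (k D B κ : ℕ) (η β K : ℝ) (hη : 0 < η) (hη1 : η ≤ 1) (hβ : 0 < β) (hβ4 : β ≤ 1 / 4) (hηB : η * B ≤ 1 / 2)
    (hK : 0 < K) :
    ∀ᶠ N : ℕ in atTop, (N : ℝ) ^ (1 - β) ≤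
      (1 / 2) * (N * ((1 / (2 * (κ : ℝ) + 1)) ^ (2 * κ + 1) * V (TT η N) ^ (2 * κ))) -
        K * ((TT η N : ℝ) + 1) ^ B - k * (2 * TT (1 / 2) N * D) := by
  set c1 := (1 / (2 * (κ : ℝ) + 1)) ^ (2 * κ + 1) with hc1
  have hc1p : 0 < c1 := by positivity
  have hg := g_pos
  set c2 := (g / (2 * η)) ^ (2 * κ) with hc2
  have hc2p : 0 < c2 := by positivity
  filter_upwards [V_TT η hη, TT_ge η hη, eventually_ge_atTop 1, log_pow_le (2 * κ) β (6 / (c1 * c2)) hβ,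
    log_top.eventually_ge_atTop 1, (rp_top (1 / 2 - β) (by linarith)).eventually_ge_atTop (K * 2 ^ B),
    (rp_top (1 / 2 - β) (by linarith)).eventually_ge_atTop (2 * (k * D))]
    with N h1 h2 h3 h4 h5 h6 h7
  have hN : (1 : ℝ) ≤ N := by exact_mod_cast h3
  have hN0 : (0 : ℝ) < N := by linarith
  have hV := V_pos (TT η N)
  have hL : 0 < Real.log N := by linarith
  -- main term
  have e1 : 3 * (N : ℝ) ^ (1 - β) ≤ (1 / 2) * (N * (c1 * V (TT η N) ^ (2 * κ))) := by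
    have h8 : c2 ≤ (V (TT η N) * Real.log N) ^ (2 * κ) := pow_le_pow_left₀ (by positivity) h1.2 _
    rw [mul_pow] at h8
    have h9 : 6 ≤ c1 * c2 * (N : ℝ) ^ β / Real.log N ^ (2 * κ) := by
      rw [le_div_iff₀ (by positivity)]
      have h10 := mul_le_mul_of_nonneg_left h4 (show 0 ≤ c1 * c2 by positivity)
      have e : c1 * c2 * (6 / (c1 * c2) * Real.log N ^ (2 * κ)) = 6 * Real.log N ^ (2 * κ) := by
        field_simp
      linarith
    have h11 : c1 * c2 / Real.log N ^ (2 * κ) ≤ c1 * V (TT η N) ^ (2 * κ) := by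
      rw [div_le_iff₀ (by positivity), mul_assoc]
      exact mul_le_mul_of_nonneg_left h8 hc1p.le
    have h12 : 0 < (N : ℝ) ^ (1 - β) := by positivity
    have h13 : (N : ℝ) ^ (1 - β) * (N : ℝ) ^ β = N := by
      rw [← Real.rpow_add hN0, sub_add_cancel, Real.rpow_one]
    calc 3 * (N : ℝ) ^ (1 - β) = (1 / 2) * (N : ℝ) ^ (1 - β) * 6 := by ring
      _ ≤ (1 / 2) * (N : ℝ) ^ (1 - β) * (c1 * c2 * (N : ℝ) ^ β / Real.log N ^ (2 * κ)) := by gcongr
      _ = (1 / 2) * (((N : ℝ) ^ (1 - β) * (N : ℝ) ^ β) * (c1 * c2 / Real.log N ^ (2 * κ))) := by ring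
      _ = (1 / 2) * (N * (c1 * c2 / Real.log N ^ (2 * κ))) := by rw [h13]
      _ ≤ _ := by gcongr
  have hhalf : (N : ℝ) ^ (1 - β) = (N : ℝ) ^ (1 / 2 - β) * (N : ℝ) ^ (1 / 2 : ℝ) := by
    rw [← Real.rpow_add hN0]
    congr 1
    ring
  have e2 : K * ((TT η N : ℝ) + 1) ^ B ≤ (N : ℝ) ^ (1 - β) := by
    have h8 : (TT η N : ℝ) + 1 ≤ 2 * (N : ℝ) ^ η := by
      have h9 := TT_le η N
      have h10 : (1 : ℝ) ≤ (N : ℝ) ^ η := Real.one_le_rpow hN hη.le
      linarith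
    calc K * ((TT η N : ℝ) + 1) ^ B ≤ K * (2 * (N : ℝ) ^ η) ^ B := by gcongr
      _ = K * 2 ^ B * ((N : ℝ) ^ η) ^ B := by rw [mul_pow]; ring
      _ = K * 2 ^ B * (N : ℝ) ^ (η * B) := by rw [Real.rpow_mul hN0.le, Real.rpow_natCast]
      _ ≤ (N : ℝ) ^ (1 / 2 - β) * (N : ℝ) ^ (1 / 2 : ℝ) := by
          gcongr
      _ = _ := hhalf.symm
  have e3 : k * (2 * (TT (1 / 2) N : ℝ) * D) ≤ (N : ℝ) ^ (1 - β) := by
    have h8 := TT_le (1 / 2) N
    calc (k : ℝ) * (2 * (TT (1 / 2) N : ℝ) * D) = 2 * (k * D) * TT (1 / 2) N := by ring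
      _ ≤ (N : ℝ) ^ (1 / 2 - β) * (N : ℝ) ^ (1 / 2 : ℝ) := by gcongr
      _ = _ := hhalf.symm
  linarith

theorem box_ev (k D : ℕ) (β : ℝ) (hβ : 0 < β) :
    ∀ᶠ N : ℕ in atTop, ((box k D (Mc β N)).card : ℝ) * Real.exp (-((N : ℝ) ^ (3 * β))) ≤ 1 / (N : ℝ) ^ 2 := by
  filter_upwards [Mc_ge β hβ, eventually_ge_atTop 1, (rp_top β hβ).eventually_ge_atTop (2 * ((D + 1) * k) + 2),
    log_pow_le 1 β 2 hβ] with N h1 h2 h3 h4
  have hN : (1 : ℝ) ≤ N := by exact_mod_cast h2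
  have hN0 : (0 : ℝ) < N := by linarith
  set u := (N : ℝ) ^ β with hu
  have hu2 : (N : ℝ) ^ (3 * β) = u ^ 3 := by
    rw [hu, ← Real.rpow_natCast, ← Real.rpow_mul hN0.le]
    congr 1
    push_cast
    ring
  have hkD : (0 : ℝ) ≤ (D + 1) * k := by positivity
  have hu1 : 2 ≤ u := by linarith
  have hM : (Mc β N : ℝ) ≤ Real.exp u := Nat.floor_le (Real.exp_pos _).le
  have h5 : (2 * (Mc β N : ℝ) + 1) ≤ Real.exp (2 * u) := by
    have h6 : (1 : ℝ) ≤ Real.exp u := Real.one_le_exp (by linarith)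
    have h7 : 3 ≤ Real.exp u := by
      have := Real.add_one_le_exp u
      linarith
    calc 2 * (Mc β N : ℝ) + 1 ≤ 3 * Real.exp u := by linarith
      _ ≤ Real.exp u * Real.exp u := by gcongr
      _ = Real.exp (2 * u) := by rw [← Real.exp_add]; congr 1; ring
  rw [card_box, hu2]
  push_cast
  rw [pow_one] at h4
  calc (2 * (Mc β N : ℝ) + 1) ^ ((D + 1) * k) * Real.exp (-(u ^ 3))
      ≤ Real.exp (2 * u) ^ ((D + 1) * k) * Real.exp (-(u ^ 3)) := by gcongr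
    _ = Real.exp (((D + 1) * k : ℕ) * (2 * u) - u ^ 3) := by
        rw [← Real.exp_nat_mul, ← Real.exp_add]
        congr 1
    _ ≤ Real.exp (-(2 * Real.log N)) := by
        apply Real.exp_le_exp.2
        push_cast
        have h6 : ((D + 1) * k : ℝ) * (2 * u) ≤ (u - 2) * u := by nlinarith
        have h7 : u ^ 2 * 2 ≤ u ^ 3 := by nlinarith [sq_nonneg u]
        nlinarith
    _ = 1 / (N : ℝ) ^ 2 := by
        rw [Real.exp_neg, show 2 * Real.log (N : ℝ) = Real.log ((N : ℝ) ^ 2) by rw [Real.log_pow]; push_cast; ring, Real.exp_log (by positivity), one_div]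
  
end Pool.Agent.H559.US
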